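import Pool.Agent.Helper71.UQ.Goals

/-!
# Project UQ, packet LEG: one coordinate of the path in the maximum norm
-/

set_option autoImplicit false

namespace Pool.Agent.Helper89.UQ.PkLEG

open Pool.Agent.Helper71.UQ

theorem second (p Δ Xj Yj t1 t2 : ℤ) (hp : 1 ≤ p) (hΔ : 32 * p ≤ Δ) (hj : Yj - Xj = Δ)
    (h1 : Δ + 4 * p ≤ 4 * (t1 - Xj)) (h2 : 4 * (t1 - Xj) ≤ Δ + 8 * p)
    (h3 : Δ + 4 * p ≤ 4 * (Yj - t2)) (h4 : 4 * (Yj - t2) ≤ Δ + 8 * p)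
    (Xi Yi v w : ℤ) (ha : Yi - Xi ≤ Δ) (hb : Δ ≤ 2 * (Yi - Xi)) (hv : 2 * (Xj - Xi) ≤ v)
    (hvw : v ≤ w) (hw : w ≤ 2 * (Yj - Yi) + 1) :
    |2 * Xi - (2 * t1 - v)| ≤ 2 * (t1 - Xj) ∧ |(2 * t1 - v) - (2 * t2 - w)| ≤ 2 * (t2 - t1) ∧
      |(2 * t2 - w) - 2 * Yi| ≤ 2 * (Yj - t2) + 1 := by
  refine ⟨?_, ?_, ?_⟩ <;> rw [abs_le] <;> constructor <;> omega

/-- **Packet LEG.** -/
theorem thm : G_LEG := by
  intro p Δ Xj Yj t1 t2 hp hΔ hj h1 h2 h3 h4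
  refine ⟨⟨by omega, by omega, by omega⟩, ?_, ?_, ?_⟩
  · intro Xi Yi v w ha hb hv hvw hw
    exact second p Δ Xj Yj t1 t2 hp hΔ hj h1 h2 h3 h4 Xi Yi v w (abs_le.1 ha).2 hb hv hvw hw
  · intro Xi Yi v w ha hb hv hvw hw
    have hd := (abs_le.1 ha).1
    obtain ⟨e1, e2, e3⟩ := second p Δ Xj Yj t1 t2 hp hΔ hj h1 h2 h3 h4 (-Xi) (-Yi) v w (by omega)
      (by omega) (by omega) hvw (by omega)
    rw [abs_le] at e1 e2 e3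
    refine ⟨?_, ?_, ?_⟩ <;> rw [abs_le] <;> constructor <;> omega
  · intro Xi Yi g hg1 hg2
    have hh : |Yi - Xi| ≤ Δ / 2 := by omega
    rw [abs_le] at hg2 hh
    refine ⟨?_, ?_⟩ <;> rw [abs_le] <;> constructor <;> omega

end Pool.Agent.Helper89.UQ.PkLEG
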